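import Mathlib

/-!
# The distinguishing index of the Mycielskian
-/

set_option autoImplicit false

universe u

namespace Pool.Agent.Results.MP_da4765_co.MycielskianDistIndex

open SimpleGraph

/-- The edge colouring `c` of `G` with the colours `0, ..., d - 1` (only the values of `c` on the
edges of `G` matter) is distinguishing: the only automorphism of `G` which preserves the colours of
all edges is the identity. -/
def IsDist {V : Type u} (G : SimpleGraph V) {d : ℕ} (c : Sym2 V → Fin d) : Prop :=
  ∀ φ : G ≃g G, (∀ x y, G.Adj x y → c s(φ x, φ y) = c s(x, y)) → ∀ x, φ x = x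

/-- The distinguishing index `D'(G)`. -/
noncomputable def distIndex {V : Type u} (G : SimpleGraph V) : ℕ :=
  sInf {d | 0 < d ∧ ∃ c : Sym2 V → Fin d, IsDist G c}

/-- The vertices of the Mycielskian: `v x` and `u x` for each vertex `x` of `G`, and `w`. -/
inductive MV (V : Type u) : Type u
  | v (x : V) : MV V
  | u (x : V) : MV V
  | w : MV V

/-- The adjacency relation of the Mycielskian. -/
def mycAdj {V : Type u} (G : SimpleGraph V) : MV V → MV V → Prop
  | .v x, .v y => G.Adj x y
  | .v x, .u y => G.Adj x y
  | .u x, .v y => G.Adj x y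
  | .u _, .w => True
  | .w, .u _ => True
  | .u _, .u _ => False
  | .v _, .w => False
  | .w, .v _ => False
  | .w, .w => False

/-- The Mycielskian `μ(G)`. -/
def mycielskian {V : Type u} (G : SimpleGraph V) : SimpleGraph (MV V) where
  Adj := mycAdj G
  symm := ⟨by
    intro a b h
    cases a <;> cases b <;> simp only [mycAdj] at h ⊢ <;> exact h.symm⟩
  loopless := ⟨by
    intro a h
    cases a <;> simp [mycAdj] at h⟩

variable {V : Type u} {G : SimpleGraph V}

/-- Twins whose edges are coloured in the same way are equal. -/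
theorem eq_of_twins {d : ℕ} {c : Sym2 V → Fin d} (hc : IsDist G c) {j j' : V}
    (h : ∀ l, G.Adj j l ↔ G.Adj j' l) (h' : ∀ l, G.Adj j l → c s(j, l) = c s(j', l)) : j = j' := by
  classical
  have hjj : ¬ G.Adj j j' := fun ha => G.irrefl ((h j').1 ha)
  have hsw : ∀ x y, G.Adj x y → G.Adj (Equiv.swap j j' x) (Equiv.swap j j' y) ∧
      c s(Equiv.swap j j' x, Equiv.swap j j' y) = c s(x, y) := by
    intro x y hxy
    by_cases hx : x = j
    · subst hx
      rw [Equiv.swap_apply_left, Equiv.swap_apply_of_ne_of_ne hxy.ne.symm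
        (fun hy => hjj (by rw [← hy]; exact hxy))]
      exact ⟨(h y).1 hxy, (h' y hxy).symm⟩
    by_cases hx' : x = j'
    · subst hx'
      rw [Equiv.swap_apply_right, Equiv.swap_apply_of_ne_of_ne
        (fun hy => hjj (by rw [← hy]; exact hxy.symm)) hxy.ne.symm]
      exact ⟨(h y).2 hxy, h' y ((h y).2 hxy)⟩
    rw [Equiv.swap_apply_of_ne_of_ne hx hx']
    by_cases hy : y = j
    · subst hy
      rw [Equiv.swap_apply_left]
      refine ⟨((h x).1 hxy.symm).symm, ?_⟩
      rw [Sym2.eq_swap, Sym2.eq_swap (a := x), h' x hxy.symm]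
    by_cases hy' : y = j'
    · subst hy'
      rw [Equiv.swap_apply_right]
      refine ⟨((h x).2 hxy.symm).symm, ?_⟩
      rw [Sym2.eq_swap, Sym2.eq_swap (a := x), h' x ((h x).2 hxy.symm)]
    rw [Equiv.swap_apply_of_ne_of_ne hy hy']
    exact ⟨hxy, rfl⟩
  let φ : G ≃g G :=
    { Equiv.swap j j' with
      map_rel_iff' := by
        intro x y
        refine ⟨fun hxy => ?_, fun hxy => (hsw x y hxy).1⟩
        have h1 := (hsw _ _ hxy).1
        change G.Adj (Equiv.swap j j' (Equiv.swap j j' x)) (Equiv.swap j j' (Equiv.swap j j' y)) at h1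
        rwa [Equiv.swap_apply_self, Equiv.swap_apply_self] at h1 }
  have h1 := hc φ (fun x y hxy => (hsw x y hxy).2) j
  change Equiv.swap j j' j = j at h1
  rw [Equiv.swap_apply_left] at h1
  exact h1.symm

section auto

variable (φ : mycielskian G ≃g mycielskian G)

theorem adj_iff (a b : MV V) : (mycielskian G).Adj (φ a) (φ b) ↔ (mycielskian G).Adj a b :=
  φ.map_rel_iff

theorem nbr_image (a : MV V) :
    (mycielskian G).neighborSet (φ a) = φ '' (mycielskian G).neighborSet a := by
  ext b
  constructor
  · intro hb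
    refine ⟨φ.symm b, ?_, φ.apply_symm_apply b⟩
    rw [SimpleGraph.mem_neighborSet] at hb ⊢
    rw [← adj_iff φ, RelIso.apply_symm_apply]
    exact hb
  · rintro ⟨b, hb, rfl⟩
    exact (adj_iff φ a b).2 hb

theorem ncard_nbr (a : MV V) : ((mycielskian G).neighborSet (φ a)).ncard =
    ((mycielskian G).neighborSet a).ncard := by
  rw [nbr_image, Set.ncard_image_of_injective _ φ.injective]

theorem ncard_common (a b : MV V) :
    ((mycielskian G).neighborSet (φ a) ∩ (mycielskian G).neighborSet (φ b)).ncard =
    ((mycielskian G).neighborSet a ∩ (mycielskian G).neighborSet b).ncard := by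
  rw [nbr_image, nbr_image, ← Set.image_inter φ.injective, Set.ncard_image_of_injective _ φ.injective]

theorem nbr_w : (mycielskian G).neighborSet MV.w = MV.u '' Set.univ := by
  ext b
  cases b <;> simp [mycielskian, mycAdj]

theorem nbr_v (i : V) : (mycielskian G).neighborSet (MV.v i) =
    MV.v '' G.neighborSet i ∪ MV.u '' G.neighborSet i := by
  ext b
  cases b <;> simp [mycielskian, mycAdj]

theorem nbr_u (i : V) : (mycielskian G).neighborSet (MV.u i) =
    insert MV.w (MV.v '' G.neighborSet i) := by
  ext b
  cases b <;> simp [mycielskian, mycAdj]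

theorem v_inj : Function.Injective (MV.v : V → MV V) := fun _ _ h => by cases h; rfl
theorem u_inj : Function.Injective (MV.u : V → MV V) := fun _ _ h => by cases h; rfl

variable [Finite V]

omit [Finite V] in
theorem ncard_nbr_w : ((mycielskian G).neighborSet MV.w).ncard = Nat.card V := by
  rw [nbr_w, Set.ncard_image_of_injective _ u_inj, Set.ncard_univ]

theorem ncard_nbr_v (i : V) : ((mycielskian G).neighborSet (MV.v i)).ncard =
    2 * (G.neighborSet i).ncard := by
  rw [nbr_v, Set.ncard_union_eq, Set.ncard_image_of_injective _ v_inj,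
    Set.ncard_image_of_injective _ u_inj, two_mul]
  · rw [Set.disjoint_left]
    rintro _ ⟨x, _, rfl⟩ ⟨y, _, h⟩
    cases h

theorem ncard_nbr_u (i : V) : ((mycielskian G).neighborSet (MV.u i)).ncard =
    (G.neighborSet i).ncard + 1 := by
  rw [nbr_u, Set.ncard_insert_of_notMem _ (Set.toFinite _), Set.ncard_image_of_injective _ v_inj]
  rintro ⟨x, _, h⟩
  cases h

omit [Finite V] in
theorem common_uv (i : V) : ((mycielskian G).neighborSet (MV.u i) ∩
    (mycielskian G).neighborSet (MV.v i)).ncard = (G.neighborSet i).ncard := by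
  have : (mycielskian G).neighborSet (MV.u i) ∩ (mycielskian G).neighborSet (MV.v i) =
      MV.v '' G.neighborSet i := by
    ext b
    cases b <;> simp [mycielskian, mycAdj]
  rw [this, Set.ncard_image_of_injective _ v_inj]

omit [Finite V] in
theorem common_vw (i : V) : ((mycielskian G).neighborSet (MV.v i) ∩
    (mycielskian G).neighborSet MV.w).ncard = (G.neighborSet i).ncard := by
  have : (mycielskian G).neighborSet (MV.v i) ∩ (mycielskian G).neighborSet MV.w =
      MV.u '' G.neighborSet i := by
    ext b
    cases b <;> simp [mycielskian, mycAdj]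
  rw [this, Set.ncard_image_of_injective _ u_inj]

/-- An automorphism does not map `w` to a vertex `v i`. -/
theorem map_w_ne_v (h3 : 3 ≤ Nat.card V) (i : V) : φ MV.w ≠ MV.v i := by
  intro hw
  have h1 := ncard_nbr φ MV.w
  rw [hw, ncard_nbr_w, ncard_nbr_v] at h1
  obtain ⟨z, hz⟩ := φ.surjective (MV.u i)
  have h2 : ¬ (mycielskian G).Adj z MV.w := by
    rw [← adj_iff φ, hz, hw]
    intro h
    exact G.irrefl (show G.Adj i i from h)
  cases z with
  | w => rw [hw] at hz; cases hz
  | u l => exact h2 trivial
  | v l =>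
    have h3' := ncard_nbr φ (MV.v l)
    rw [hz, ncard_nbr_u, ncard_nbr_v] at h3'
    have h4 := ncard_common φ (MV.v l) MV.w
    rw [hz, hw, common_uv, common_vw] at h4
    omega

end auto

/-- The projection of the vertices `v x` and `u x` to `x`. -/
def pr : MV V → Option V
  | .v x => some x
  | .u x => some x
  | .w => none

/-- The colouring of the Mycielskian: the edges `v x - v y` and `v x - u y` get the colour of
`x - y`, and the edges at `w` get the colour `c0`. -/
def colAux {d : ℕ} (c : Sym2 V → Fin d) (c0 : Fin d) : Option V → Option V → Fin d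
  | some x, some y => c s(x, y)
  | some _, none => c0
  | none, some _ => c0
  | none, none => c0

def col {d : ℕ} (c : Sym2 V → Fin d) (c0 : Fin d) : Sym2 (MV V) → Fin d :=
  Sym2.lift ⟨fun a b => colAux c c0 (pr a) (pr b), by
    intro a b
    cases a <;> cases b <;> simp only [pr, colAux] <;> first | rfl | rw [Sym2.eq_swap]⟩

theorem isDist_col [Finite V] (h3 : 3 ≤ Nat.card V) {d : ℕ} {c : Sym2 V → Fin d}
    (hc : IsDist G c) (c0 : Fin d) : IsDist (mycielskian G) (col c c0) := by
  classical
  intro φ hφ
  have hadj := adj_iff φ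
  -- `w` is fixed
  have hw : φ MV.w = MV.w := by
    cases hx : φ MV.w with
    | w => rfl
    | v i => exact absurd hx (map_w_ne_v φ h3 i)
    | u i =>
      exfalso
      have h1 := ncard_nbr φ MV.w
      rw [hx, ncard_nbr_w, ncard_nbr_u] at h1
      -- all the edges at `u i` have the colour `c0`
      have hcol : ∀ b, (mycielskian G).Adj (MV.u i) b → col c c0 s(MV.u i, b) = c0 := by
        intro b hb
        obtain ⟨b', rfl⟩ := φ.surjective b
        rw [← hx, hadj] at hb
        rw [← hx, hφ _ _ hb]
        cases b' <;> rfl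
      -- the neighbours of `u i` are independent
      have hind : ∀ j j', G.Adj i j → G.Adj i j' → ¬ G.Adj j j' := by
        intro j j' hj hj' hjj'
        obtain ⟨a, ha⟩ := φ.surjective (MV.v j)
        obtain ⟨b, hb⟩ := φ.surjective (MV.v j')
        have e1 : (mycielskian G).Adj MV.w a := by rw [← hadj, hx, ha]; exact hj
        have e2 : (mycielskian G).Adj MV.w b := by rw [← hadj, hx, hb]; exact hj'
        have e3 : (mycielskian G).Adj a b := by rw [← hadj, ha, hb]; exact hjj'
        cases a <;> cases b <;> simp [mycielskian, mycAdj] at e1 e2 e3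
      -- `i` is adjacent to all other vertices
      have hall : ∀ j, j ≠ i → G.Adj i j := by
        have h2 : G.neighborSet i = {i}ᶜ := by
          apply Set.eq_of_subset_of_ncard_le (ht := Set.toFinite _)
          · intro j hj
            exact fun h => G.irrefl (h ▸ hj : G.Adj i i)
          · rw [Set.ncard_compl, Set.ncard_singleton]
            omega
        intro j hj
        have : j ∈ G.neighborSet i := by rw [h2]; exact hj
        exact this
      obtain ⟨j, j', hji, hji', hjj'⟩ : ∃ j j', j ≠ i ∧ j' ≠ i ∧ j ≠ j' := by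
        have h2 : 1 < ({i}ᶜ : Set V).ncard := by
          rw [Set.ncard_compl, Set.ncard_singleton]
          omega
        obtain ⟨j, j', hj, hj', hne⟩ := (Set.one_lt_ncard_iff (Set.toFinite _)).1 h2
        exact ⟨j, j', hj, hj', hne⟩
      apply hjj'
      have key : ∀ x, x ≠ i → ∀ l, G.Adj x l ↔ l = i := by
        intro x hx l
        constructor
        · intro h
          by_contra hl
          exact hind x l (hall x hx) (hall l hl) h
        · rintro rfl
          exact (hall x hx).symm
      apply eq_of_twins hc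
      · intro l
        rw [key j hji, key j' hji']
      · intro l hl
        have hl' := (key j hji l).1 hl
        subst hl'
        have e1 : c s(l, j) = c0 := hcol (MV.v j) (hall j hji)
        have e2 : c s(l, j') = c0 := hcol (MV.v j') (hall j' hji')
        rw [Sym2.eq_swap, e1, Sym2.eq_swap, e2]
  -- the levels are preserved
  have hu : ∀ x, ∃ y, φ (MV.u x) = MV.u y := by
    intro x
    have h1 : (mycielskian G).Adj (φ MV.w) (φ (MV.u x)) := (hadj _ _).2 trivial
    rw [hw] at h1
    cases hy : φ (MV.u x) with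
    | u y => exact ⟨y, rfl⟩
    | v y => rw [hy] at h1; exact h1.elim
    | w => rw [hy] at h1; exact h1.elim
  have hv : ∀ x, ∃ y, φ (MV.v x) = MV.v y := by
    intro x
    have h1 : ¬ (mycielskian G).Adj (φ MV.w) (φ (MV.v x)) := fun h => ((hadj _ _).1 h : False)
    rw [hw] at h1
    cases hy : φ (MV.v x) with
    | u y => rw [hy] at h1; exact absurd trivial h1
    | v y => exact ⟨y, rfl⟩
    | w => exact absurd (φ.injective (hy.trans hw.symm)) (by intro h; cases h)
  choose τ hτ using hu
  choose σ hσ using hv
  have hσinj : Function.Injective σ := by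
    intro x y h
    have : φ (MV.v x) = φ (MV.v y) := by rw [hσ, hσ, h]
    exact v_inj (φ.injective this)
  have hσadj : ∀ x y, G.Adj (σ x) (σ y) ↔ G.Adj x y := by
    intro x y
    have h1 := hadj (MV.v x) (MV.v y)
    rw [hσ, hσ] at h1
    exact h1
  let ψ : G ≃g G :=
    { Equiv.ofBijective σ (Finite.injective_iff_bijective.1 hσinj) with
      map_rel_iff' := by
        intro x y
        exact hσadj x y }
  have hσid : ∀ x, σ x = x := hc ψ (by
    intro x y hxy
    have h1 := hφ (MV.v x) (MV.v y) hxy
    rw [hσ, hσ] at h1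
    exact h1)
  have hτid : ∀ x, τ x = x := by
    intro x
    symm
    have key : ∀ l, G.Adj x l ↔ G.Adj (τ x) l := by
      intro l
      have h1 := hadj (MV.u x) (MV.v l)
      rw [hτ, hσ, hσid] at h1
      exact h1.symm
    apply eq_of_twins hc key
    intro l hl
    have h1 := hφ (MV.u x) (MV.v l) hl
    rw [hτ, hσ, hσid] at h1
    exact h1.symm
  intro a
  cases a with
  | v x => rw [hσ, hσid]
  | u x => rw [hτ, hτid]
  | w => exact hw

/-- A connected graph with at least three vertices has a distinguishing edge colouring. -/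
theorem exists_isDist [Finite V] (hG : G.Connected) (h3 : 3 ≤ Nat.card V) :
    ∃ d, 0 < d ∧ ∃ c : Sym2 V → Fin d, IsDist G c := by
  classical
  have := Fintype.ofFinite V
  have hne : Nonempty V := hG.nonempty
  refine ⟨Fintype.card (Sym2 V), Fintype.card_pos_iff.2 ⟨s(hne.some, hne.some)⟩,
    Fintype.equivFin (Sym2 V), ?_⟩
  intro φ hφ
  have hφ' : ∀ x y, G.Adj x y → s(φ x, φ y) = s(x, y) := fun x y h =>
    (Fintype.equivFin (Sym2 V)).injective (hφ x y h)
  -- if `φ` moves `x`, it interchanges `x` and its neighbour `y`, and there is no third vertex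
  intro x
  by_contra hx
  have hnt : Nontrivial V := by
    rw [← Finite.one_lt_card_iff_nontrivial]
    omega
  obtain ⟨y, hy⟩ := hG.preconnected.exists_adj_of_nontrivial x
  have h1 := hφ' x y hy
  rw [Sym2.eq_iff] at h1
  have h2 : φ x = y ∧ φ y = x := by
    rcases h1 with h | h
    · exact absurd h.1 hx
    · exact h
  obtain ⟨z, hz⟩ : ∃ z, z ∉ ({x, y} : Set V) := by
    by_contra hcon
    push Not at hcon
    have h4 : (Set.univ : Set V) ⊆ {x, y} := fun z _ => hcon z
    have h5 := Set.ncard_le_ncard h4 (Set.toFinite _)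
    rw [Set.ncard_univ] at h5
    have h6 : ({x, y} : Set V).ncard ≤ 2 := by
      have := Set.ncard_insert_le x {y}
      rw [Set.ncard_singleton] at this
      exact this
    omega
  obtain ⟨p⟩ := hG.preconnected x z
  obtain ⟨e, -, he1, he2⟩ := p.exists_boundary_dart ({x, y} : Set V) (by simp) hz
  have h7 := hφ' _ _ e.adj
  rw [Sym2.eq_iff] at h7
  simp only [Set.mem_insert_iff, Set.mem_singleton_iff, not_or] at he1 he2
  rcases he1 with h | h
  · rw [h, h2.1] at h7
    rcases h7 with h8 | h8
    · exact hx (h2.1.trans h8.1)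
    · exact he2.2 h8.1.symm
  · rw [h, h2.2] at h7
    rcases h7 with h8 | h8
    · exact hx (h2.1.trans h8.1.symm)
    · exact he2.1 h8.1.symm

/-- For every finite connected graph `G` with at least three vertices, `G` and its Mycielskian have
distinguishing edge colourings and `D'(μ(G)) ≤ D'(G)`. -/
theorem result {V : Type u} [Fintype V] (G : SimpleGraph V) (hG : G.Connected)
    (h3 : 3 ≤ Fintype.card V) :
    (∃ d, 0 < d ∧ ∃ c : Sym2 V → Fin d, IsDist G c) ∧
      (∃ d, 0 < d ∧ ∃ c : Sym2 (MV V) → Fin d, IsDist (mycielskian G) c) ∧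
      distIndex (mycielskian G) ≤ distIndex G := by
  have h3' : 3 ≤ Nat.card V := by rwa [Nat.card_eq_fintype_card]
  have h1 := exists_isDist hG h3'
  have key : ∀ d, (0 < d ∧ ∃ c : Sym2 V → Fin d, IsDist G c) →
      (0 < d ∧ ∃ c : Sym2 (MV V) → Fin d, IsDist (mycielskian G) c) := by
    rintro d ⟨hd, c, hc⟩
    exact ⟨hd, col c ⟨0, hd⟩, isDist_col h3' hc ⟨0, hd⟩⟩
  refine ⟨h1, ?_, ?_⟩
  · obtain ⟨d, hd⟩ := h1
    exact ⟨d, key d hd⟩
  · exact Nat.sInf_le (key _ (Nat.sInf_mem h1))

end Pool.Agent.Results.MP_da4765_co.MycielskianDistIndex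

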